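import Pool.Agent.Helper41.KV.GoalsE

/-! PACKET KV-COERC for MP_66be51_an (helper41): spectral gap by the ladder argument. -/

set_option autoImplicit false

open Real MeasureTheory Set Filter Topology
open Pool.Agent.Helper41.KV

namespace Pool.Agent.Helper54.KV

/-- continuous and square integrable -/
private def L2c (u : ℝ → ℝ) : Prop := Continuous u ∧ Integrable (fun y => u y ^ 2)

private lemma L2c.mul {u v : ℝ → ℝ} (hu : L2c u) (hv : L2c v) :
    Integrable (fun y => u y * v y) := by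
  refine (hu.2.add hv.2).mono' (hu.1.mul hv.1).aestronglyMeasurable (ae_of_all _ fun y => ?_)
  rw [Real.norm_eq_abs, abs_mul]
  have h1 := sq_abs (u y)
  have h2 := sq_abs (v y)
  simp only [Pi.add_apply]
  nlinarith [sq_nonneg (|u y| - |v y|), sq_nonneg (|u y|), sq_nonneg (|v y|)]

private lemma L2c.bmul {b u : ℝ → ℝ} {M : ℝ} (hb : Continuous b) (hM : ∀ y, |b y| ≤ M)
    (hu : L2c u) : L2c (fun y => b y * u y) := by
  refine ⟨hb.mul hu.1, ?_⟩
  refine (hu.2.const_mul (M ^ 2)).mono' ((hb.mul hu.1).pow 2).aestronglyMeasurable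
    (ae_of_all _ fun y => ?_)
  rw [Real.norm_eq_abs, abs_of_nonneg (sq_nonneg _), mul_pow]
  have h1 : b y ^ 2 ≤ M ^ 2 := by
    rw [← sq_abs (b y)]
    exact pow_le_pow_left₀ (abs_nonneg _) (hM y) 2
  exact mul_le_mul_of_nonneg_right h1 (sq_nonneg _)

private lemma L2c.add {u v : ℝ → ℝ} (hu : L2c u) (hv : L2c v) : L2c (fun y => u y + v y) := by
  refine ⟨hu.1.add hv.1, ?_⟩
  have h := (hu.2.add ((hu.mul hv).const_mul 2)).add hv.2
  refine h.congr (ae_of_all _ fun y => ?_)
  simp only [Pi.add_apply]; ring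

private lemma L2c.cmul {u : ℝ → ℝ} (c : ℝ) (hu : L2c u) : L2c (fun y => c * u y) :=
  L2c.bmul (b := fun _ => c) continuous_const (fun _ => le_rfl) hu

private lemma L2c.comp_neg {u : ℝ → ℝ} (hu : L2c u) : L2c (fun y => u (-y)) :=
  ⟨hu.1.comp continuous_neg, hu.2.comp_neg⟩

/-- `tanh 2y` -/
private noncomputable def T (y : ℝ) : ℝ := Real.tanh (2 * y)
/-- `sech² 2y` -/
private noncomputable def S (y : ℝ) : ℝ := 1 / Real.cosh (2 * y) ^ 2

private lemma T_eq (y : ℝ) : T y = Real.sinh (2 * y) / Real.cosh (2 * y) :=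
  Real.tanh_eq_sinh_div_cosh _

private lemma T_sq (y : ℝ) : T y ^ 2 = 1 - S y := by
  rw [T_eq]; unfold S
  have h := Real.cosh_sq (2 * y)
  have hc := Real.cosh_pos (2 * y)
  field_simp
  linarith

private lemma S_nonneg (y : ℝ) : 0 ≤ S y := by unfold S; positivity

private lemma S_le (y : ℝ) : S y ≤ 1 := by
  have := T_sq y
  nlinarith [sq_nonneg (T y)]

private lemma S_abs (y : ℝ) : |S y| ≤ 1 := by
  rw [abs_of_nonneg (S_nonneg y)]; exact S_le y

private lemma T_abs (y : ℝ) : |T y| ≤ 1 := by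
  have h := T_sq y
  have h2 := S_nonneg y
  exact abs_le_one_iff_mul_self_le_one.mpr (by nlinarith)

private lemma T_neg (y : ℝ) : T (-y) = -T y := by
  unfold T; rw [mul_neg, Real.tanh_neg]

private lemma T_cont : Continuous T := by
  have : T = fun y => Real.sinh (2 * y) / Real.cosh (2 * y) := funext T_eq
  rw [this]
  exact (Real.continuous_sinh.comp (continuous_const.mul continuous_id)).div
    (Real.continuous_cosh.comp (continuous_const.mul continuous_id))
    (fun y => (Real.cosh_pos _).ne')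

private lemma S_cont : Continuous S := by
  unfold S
  exact continuous_const.div ((Real.continuous_cosh.comp
    (continuous_const.mul continuous_id)).pow 2) (fun y => (pow_pos (Real.cosh_pos _) 2).ne')

private lemma T_deriv (y : ℝ) : HasDerivAt T (2 * S y) y := by
  have h0 : HasDerivAt (fun y : ℝ => 2 * y) 2 y := by
    simpa using (hasDerivAt_id y).const_mul 2
  have h1 : HasDerivAt (fun y : ℝ => Real.sinh (2 * y)) (Real.cosh (2 * y) * 2) y := h0.sinh
  have h2 : HasDerivAt (fun y : ℝ => Real.cosh (2 * y)) (Real.sinh (2 * y) * 2) y := h0.cosh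
  have hc := Real.cosh_pos (2 * y)
  have h3 := h1.div h2 hc.ne'
  have : T = fun y => Real.sinh (2 * y) / Real.cosh (2 * y) := funext T_eq
  rw [this]
  refine h3.congr_deriv ?_
  unfold S
  have h := Real.cosh_sq (2 * y)
  field_simp
  nlinarith

private lemma ibp {u v u' v' : ℝ → ℝ} (hu : ∀ x, HasDerivAt u (u' x) x)
    (hv : ∀ x, HasDerivAt v (v' x) x) (lu : L2c u) (lv : L2c v) (lu' : L2c u') (lv' : L2c v') :
    ∫ y, u y * v' y = -∫ y, u' y * v y :=
  integral_mul_deriv_eq_deriv_mul_of_integrable (fun x _ => hu x) (fun x _ => hv x)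
    (lu.mul lv') (lu'.mul lv) (lu.mul lv)

/-- norm identity -/
private lemma normid {s n : ℝ} {f f' : ℝ → ℝ} (hs : s ^ 2 = 1) (hf : ∀ x, HasDerivAt f (f' x) x)
    (lf : L2c f) (lf' : L2c f') :
    ∫ y, (s * f' y + n * T y * f y) ^ 2
      = ∫ y, (f' y ^ 2 + n ^ 2 * f y ^ 2 - (n ^ 2 + 2 * s * n) * (S y * f y ^ 2)) := by
  have lTf : L2c (fun y => T y * f y) := L2c.bmul T_cont T_abs lf
  have lTf' : L2c (fun y => T y * f' y) := L2c.bmul T_cont T_abs lf'
  have lSf : L2c (fun y => S y * f y) := L2c.bmul S_cont S_abs lf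
  have ld : L2c (fun y => 2 * S y * f y + T y * f' y) := by
    have := (lSf.cmul 2).add lTf'
    refine ⟨?_, ?_⟩
    · refine this.1.congr fun y => ?_
      ring
    · refine this.2.congr (ae_of_all _ fun y => ?_)
      show _ = _
      ring
  have hd : ∀ x, HasDerivAt (fun y => T y * f y) (2 * S x * f x + T x * f' x) x :=
    fun x => (T_deriv x).mul (hf x)
  have h1 := ibp hd hf lTf lf ld lf'
  have i1 : Integrable (fun y => T y * f y * f' y) := lTf.mul lf'
  have i2 : Integrable (fun y => S y * f y ^ 2) := by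
    refine (lSf.mul lf).congr (ae_of_all _ fun y => ?_)
    show _ = _
    ring
  have h2 : ∫ y, (2 * S y * f y + T y * f' y) * f y
      = 2 * (∫ y, S y * f y ^ 2) + ∫ y, T y * f y * f' y := by
    rw [← integral_const_mul, ← integral_add (i2.const_mul 2) i1]
    refine integral_congr_ae (ae_of_all _ fun y => ?_)
    show _ = _
    ring
  rw [h2] at h1
  have h3 : (∫ y, T y * f y * f' y) + ∫ y, S y * f y ^ 2 = 0 := by linarith
  have i3 : Integrable (fun y => f' y ^ 2 + n ^ 2 * f y ^ 2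
      - (n ^ 2 + 2 * s * n) * (S y * f y ^ 2)) :=
    (lf'.2.add (lf.2.const_mul _)).sub (i2.const_mul _)
  have i4 : Integrable (fun y => 2 * s * n * (T y * f y * f' y + S y * f y ^ 2)) :=
    (i1.add i2).const_mul _
  have h4 : ∫ y, 2 * s * n * (T y * f y * f' y + S y * f y ^ 2) = 0 := by
    rw [integral_const_mul, integral_add i1 i2, h3, mul_zero]
  have h5 : ∫ y, (s * f' y + n * T y * f y) ^ 2
      = ∫ y, ((f' y ^ 2 + n ^ 2 * f y ^ 2 - (n ^ 2 + 2 * s * n) * (S y * f y ^ 2))
        + 2 * s * n * (T y * f y * f' y + S y * f y ^ 2)) := by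
    refine integral_congr_ae (ae_of_all _ fun y => ?_)
    show _ = _
    have hT := T_sq y
    linear_combination (f' y ^ 2) * hs + n ^ 2 * f y ^ 2 * hT
  rw [h5, integral_add i3 i4, h4, add_zero]

private lemma T_half {y : ℝ} (hy : 1 ≤ y) : 1 / 2 ≤ T y := by
  rw [T_eq, le_div_iff₀ (Real.cosh_pos _), Real.sinh_eq, Real.cosh_eq]
  have h1 : (3 : ℝ) * Real.exp (-(2 * y)) ≤ Real.exp (2 * y) := by
    have h2 : Real.exp (2 * y) = Real.exp (4 * y) * Real.exp (-(2 * y)) := by
      rw [← Real.exp_add]; ring_nf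
    rw [h2]
    refine mul_le_mul_of_nonneg_right ?_ (Real.exp_pos _).le
    have := Real.add_one_le_exp (4 * y)
    linarith
  linarith

/-- energy argument on the right half line -/
private lemma energy {w z : ℝ → ℝ} {n : ℝ} (hn : 1 ≤ n)
    (hw : ∀ y, HasDerivAt w (n * T y * w y - z y) y) (hz : L2c z) {B : ℝ}
    (hB : ∀ y, 0 ≤ y → |w y| ≤ B) : IntegrableOn (fun y => w y ^ 2) (Ioi 0) := by
  have hwc : Continuous w := continuous_iff_continuousAt.mpr fun y => (hw y).continuousAt
  have hw2c : Continuous (fun y => w y ^ 2) := hwc.pow 2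
  have hsplit : Ioi (0 : ℝ) = Ioc 0 1 ∪ Ioi 1 := (Ioc_union_Ioi_eq_Ioi zero_le_one).symm
  rw [hsplit]
  refine IntegrableOn.union (hw2c.integrableOn_Ioc) ?_
  have hdc : Continuous (fun y => n * T y * w y - z y) :=
    ((continuous_const.mul T_cont).mul hwc).sub hz.1
  refine integrableOn_Ioi_of_intervalIntegral_norm_bounded
    (2 * (B ^ 2 + 2 * ∫ y, z y ^ 2)) 1 (b := fun R : ℝ => R) (l := atTop)
    (fun i => hw2c.integrableOn_Ioc) tendsto_id ?_
  filter_upwards [eventually_ge_atTop (1 : ℝ)] with R hR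
  have hFTC : ∫ y in (1 : ℝ)..R, (2 * w y * (n * T y * w y - z y)) = w R ^ 2 - w 1 ^ 2 := by
    refine intervalIntegral.integral_eq_sub_of_hasDerivAt (f := fun y => w y ^ 2)
      (fun y _ => ?_) ?_
    · have := (hw y).pow 2
      refine this.congr_deriv ?_
      simp
    · exact ((continuous_const.mul hwc).mul hdc).intervalIntegrable _ _
  have hz2 : ∫ y in (1 : ℝ)..R, z y ^ 2 ≤ ∫ y, z y ^ 2 := by
    rw [intervalIntegral.integral_of_le hR]
    exact setIntegral_le_integral hz.2 (ae_of_all _ fun y => sq_nonneg _)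
  have hmono : ∫ y in (1 : ℝ)..R, ‖w y ^ 2‖ ≤ ∫ y in (1 : ℝ)..R,
      (2 * (2 * w y * (n * T y * w y - z y)) + 4 * z y ^ 2) := by
    refine intervalIntegral.integral_mono_on hR (hw2c.norm.intervalIntegrable _ _)
      ((((continuous_const.mul ((continuous_const.mul hwc).mul hdc))).add
        (continuous_const.mul (hz.1.pow 2))).intervalIntegrable _ _) (fun y hy => ?_)
    rw [Real.norm_eq_abs, abs_of_nonneg (sq_nonneg _)]
    have hT := T_half hy.1
    have h1 : 1 / 2 ≤ n * T y := by nlinarith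
    have h2 : w y ^ 2 ≤ 2 * (n * T y) * w y ^ 2 := by nlinarith [sq_nonneg (w y)]
    nlinarith [sq_nonneg (w y - 2 * z y)]
  have hsum : ∫ y in (1 : ℝ)..R, (2 * (2 * w y * (n * T y * w y - z y)) + 4 * z y ^ 2)
      = 2 * (w R ^ 2 - w 1 ^ 2) + 4 * ∫ y in (1 : ℝ)..R, z y ^ 2 := by
    have iA : IntervalIntegrable (fun y => 2 * (2 * w y * (n * T y * w y - z y))) volume 1 R :=
      (continuous_const.mul ((continuous_const.mul hwc).mul hdc)).intervalIntegrable _ _
    have iB : IntervalIntegrable (fun y => 4 * z y ^ 2) volume 1 R :=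
      (continuous_const.mul (hz.1.pow 2)).intervalIntegrable _ _
    rw [intervalIntegral.integral_add iA iB,
      intervalIntegral.integral_const_mul, hFTC, intervalIntegral.integral_const_mul]
  have hBR : w R ^ 2 ≤ B ^ 2 := by
    rw [← sq_abs (w R)]
    exact pow_le_pow_left₀ (abs_nonneg _) (hB R (by linarith)) 2
  rw [hsum] at hmono
  nlinarith [sq_nonneg (w 1)]

/-- exponential bounds for the profile -/
private structure QB (C : ℝ) : Prop where
  one : 1 ≤ C
  up : ∀ y, Q y ≤ C * Real.exp (-|y|)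
  lo : ∀ y, Real.exp (-|y|) ≤ Q y
  ev : ∀ y, Q (-y) = Q y
  co : Continuous Q
  der : ∀ y, HasDerivAt Q (-(Q y * T y)) y

private lemma QB_of (hQ : S_QF) : ∃ C, QB C := by
  obtain ⟨h1, h2, h3, -, h5, -, h7, h8⟩ := hQ
  obtain ⟨C, hC⟩ := h7 0
  have hC1 : ∀ y, Q y ≤ C * Real.exp (-|y|) := by
    intro y
    have := hC y
    rw [iteratedDeriv_zero] at this
    exact (le_abs_self _).trans this
  refine ⟨C, ⟨?_, hC1, h8, h3, h1.continuous, fun y => ?_⟩⟩
  · have := (h8 0).trans (hC1 0)
    simpa using this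
  · have hd : DifferentiableAt ℝ Q y := (h1.differentiable (by simp)) y
    have := hd.hasDerivAt
    rw [h5 y] at this
    exact this

private lemma expabs_int : Integrable (fun y : ℝ => Real.exp (-|y|)) := by
  have h1 : IntegrableOn (fun y : ℝ => Real.exp (-|y|)) (Iic 0) := by
    refine (integrableOn_exp_Iic 0).congr_fun (fun y hy => ?_) measurableSet_Iic
    show Real.exp y = Real.exp (-|y|)
    rw [abs_of_nonpos hy, neg_neg]
  have h2 : IntegrableOn (fun y : ℝ => Real.exp (-|y|)) (Ioi 0) := by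
    refine (integrableOn_exp_neg_Ioi 0).congr_fun (fun y hy => ?_) measurableSet_Ioi
    show Real.exp (-y) = Real.exp (-|y|)
    rw [abs_of_pos hy]
  have := h1.union h2
  rwa [Iic_union_Ioi, integrableOn_univ] at this

private lemma G_L2 {C : ℝ} (hq : QB C) (hpos : ∀ y, 0 < Q y) {n : ℕ} (hn : 1 ≤ n) :
    L2c (fun y => Q y ^ n) := by
  refine ⟨hq.co.pow n, ?_⟩
  refine (expabs_int.const_mul (C ^ (2 * n))).mono' ((hq.co.pow n).pow 2).aestronglyMeasurable
    (ae_of_all _ fun y => ?_)
  rw [Real.norm_eq_abs, abs_of_nonneg (sq_nonneg _), ← pow_mul, mul_comm n 2]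
  calc Q y ^ (2 * n) ≤ (C * Real.exp (-|y|)) ^ (2 * n) :=
        pow_le_pow_left₀ (hpos y).le (hq.up y) _
    _ = C ^ (2 * n) * Real.exp (-|y|) ^ (2 * n) := by rw [mul_pow]
    _ ≤ C ^ (2 * n) * Real.exp (-|y|) := by
        refine mul_le_mul_of_nonneg_left ?_ (pow_nonneg (zero_le_one.trans hq.one) _)
        refine pow_le_of_le_one (Real.exp_pos _).le ?_ (by omega)
        exact Real.exp_le_one_iff.mpr (by simp)

/-- tail bound -/
private lemma tail {C : ℝ} (hq : QB C) (hpos : ∀ y, 0 < Q y) {n : ℕ} (hn : 1 ≤ n) {z : ℝ → ℝ}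
    (hz : L2c z) {y : ℝ} (hy : 0 ≤ y) :
    |∫ t in Ioi y, z t * Q t ^ n| ≤ C ^ n * (1 + ∫ t, z t ^ 2) * Q y ^ n := by
  have hG := G_L2 hq hpos hn
  have hC0 : 0 ≤ C := zero_le_one.trans hq.one
  have i1 : IntegrableOn (fun t => z t * Q t ^ n) (Ioi y) := (hz.mul hG).integrableOn
  have i2 : IntegrableOn (fun t => C ^ n * Real.exp (-(n * y)) *
      (Real.exp y * Real.exp (-t) + z t ^ 2)) (Ioi y) :=
    ((((integrableOn_exp_neg_Ioi y).const_mul _)).add hz.2.integrableOn).const_mul _
  have h1 : |∫ t in Ioi y, z t * Q t ^ n| ≤ ∫ t in Ioi y, C ^ n * Real.exp (-(n * y)) *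
      (Real.exp y * Real.exp (-t) + z t ^ 2) := by
    refine (abs_integral_le_integral_abs).trans ?_
    refine setIntegral_mono_on i1.abs i2 measurableSet_Ioi (fun t ht => ?_)
    have hty : y < t := ht
    have ht0 : 0 ≤ t := hy.trans hty.le
    have hQt : Q t ^ n ≤ C ^ n * (Real.exp (-(n * y)) * (Real.exp y * Real.exp (-t))) := by
      calc Q t ^ n ≤ (C * Real.exp (-|t|)) ^ n := pow_le_pow_left₀ (hpos t).le (hq.up t) _
        _ = C ^ n * Real.exp (-(n * t)) := by
            rw [mul_pow, abs_of_nonneg ht0, ← Real.exp_nat_mul]; ring_nf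
        _ ≤ C ^ n * (Real.exp (-(n * y)) * (Real.exp y * Real.exp (-t))) := by
            refine mul_le_mul_of_nonneg_left ?_ (pow_nonneg hC0 _)
            rw [← Real.exp_add, ← Real.exp_add]
            refine Real.exp_le_exp.mpr ?_
            have hn' : (1 : ℝ) ≤ n := by exact_mod_cast hn
            nlinarith
    have he1 : Real.exp y * Real.exp (-t) ≤ 1 := by
      rw [← Real.exp_add]; exact Real.exp_le_one_iff.mpr (by linarith)
    have he0 : 0 < Real.exp y * Real.exp (-t) := by positivity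
    rw [abs_mul, abs_of_pos (pow_pos (hpos t) n)]
    calc |z t| * Q t ^ n
        ≤ |z t| * (C ^ n * (Real.exp (-(n * y)) * (Real.exp y * Real.exp (-t)))) :=
          mul_le_mul_of_nonneg_left hQt (abs_nonneg _)
      _ = C ^ n * Real.exp (-(n * y)) * (|z t| * (Real.exp y * Real.exp (-t))) := by ring
      _ ≤ C ^ n * Real.exp (-(n * y)) * (Real.exp y * Real.exp (-t) + z t ^ 2) := by
          refine mul_le_mul_of_nonneg_left ?_ (by positivity)
          have h2 := sq_abs (z t)
          rw [← h2]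
          set E := Real.exp y * Real.exp (-t)
          have h3 := abs_nonneg (z t)
          nlinarith [sq_nonneg (|z t| - 1), mul_nonneg he0.le (sq_nonneg (|z t| - 1)),
            mul_nonneg (sub_nonneg.mpr he1) (sq_nonneg (|z t|))]
  refine h1.trans ?_
  rw [integral_const_mul, integral_add ((integrableOn_exp_neg_Ioi y).const_mul _)
    hz.2.integrableOn, integral_const_mul, integral_exp_neg_Ioi, ← Real.exp_add, add_neg_cancel,
    Real.exp_zero]
  have h4 : ∫ t in Ioi y, z t ^ 2 ≤ ∫ t, z t ^ 2 :=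
    setIntegral_le_integral hz.2 (ae_of_all _ fun y => sq_nonneg _)
  have h5 : Real.exp (-(n * y)) ≤ Q y ^ n := by
    have := pow_le_pow_left₀ (Real.exp_pos _).le (hq.lo y) n
    rw [abs_of_nonneg hy, ← Real.exp_nat_mul] at this
    refine le_trans (le_of_eq ?_) this
    ring_nf
  have h6 : 0 ≤ ∫ t in Ioi y, z t ^ 2 := setIntegral_nonneg measurableSet_Ioi
    (fun t _ => sq_nonneg _)
  have h7 : (0 : ℝ) ≤ C ^ n := pow_nonneg hC0 _
  calc C ^ n * Real.exp (-(n * y)) * (1 + ∫ t in Ioi y, z t ^ 2)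
      ≤ C ^ n * Q y ^ n * (1 + ∫ t, z t ^ 2) := by
        refine mul_le_mul (mul_le_mul_of_nonneg_left h5 h7) (by linarith) (by linarith)
          (mul_nonneg h7 (pow_nonneg (hpos y).le _))
    _ = C ^ n * (1 + ∫ t, z t ^ 2) * Q y ^ n := by ring

/-- Lemma R: solving `-w' + n tanh(2y) w = z`. -/
private lemma solve {C : ℝ} (hq : QB C) (hpos : ∀ y, 0 < Q y) {n : ℕ} (hn : 1 ≤ n)
    {z : ℝ → ℝ} (hz : L2c z) (h0 : ∫ y, z y * Q y ^ n = 0) :
    ∃ w, L2c w ∧ ∀ y, HasDerivAt w (n * T y * w y - z y) y := by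
  have hG := G_L2 hq hpos hn
  have hi : Integrable (fun t => z t * Q t ^ n) := hz.mul hG
  have hc : Continuous (fun t => z t * Q t ^ n) := hz.1.mul hG.1
  set I0 := ∫ t in Ioi (0 : ℝ), z t * Q t ^ n with hI0
  set N : ℝ → ℝ := fun y => I0 - ∫ t in (0 : ℝ)..y, z t * Q t ^ n with hN
  have hNr : ∀ y, N y = ∫ t in Ioi y, z t * Q t ^ n := by
    intro y
    have := intervalIntegral.integral_interval_add_Ioi (f := fun t => z t * Q t ^ n)
      (a := 0) (b := y) hi.integrableOn hi.integrableOn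
    simp only [hN]
    linarith
  have hNl : ∀ y, N y = -∫ t in Iic y, z t * Q t ^ n := by
    intro y
    have h1 := intervalIntegral.integral_Iic_add_Ioi (f := fun t => z t * Q t ^ n) (b := y)
      (μ := volume) hi.integrableOn hi.integrableOn
    rw [hNr y]
    linarith
  have hN' : ∀ y, HasDerivAt N (-(z y * Q y ^ n)) y := by
    intro y
    have h1 : HasDerivAt (fun u => ∫ t in (0 : ℝ)..u, z t * Q t ^ n) (z y * Q y ^ n) y :=
      intervalIntegral.integral_hasDerivAt_right (hc.intervalIntegrable _ _)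
        (hc.stronglyMeasurableAtFilter _ _) hc.continuousAt
    have h2 := (hasDerivAt_const y I0).sub h1
    refine h2.congr_deriv ?_
    ring
  set w : ℝ → ℝ := fun y => N y / Q y ^ n with hwdef
  have hw' : ∀ y, HasDerivAt w (n * T y * w y - z y) y := by
    intro y
    have h1 : HasDerivAt (fun y => Q y ^ n) (n * Q y ^ (n - 1) * -(Q y * T y)) y :=
      (hq.der y).pow n
    have hne : Q y ^ n ≠ 0 := (pow_pos (hpos y) n).ne'
    have h2 := (hN' y).div h1 hne
    refine h2.congr_deriv ?_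
    have hQn := (hpos y).ne'
    obtain ⟨m, rfl⟩ : ∃ m, n = m + 1 := ⟨n - 1, by omega⟩
    simp only [hwdef, Nat.add_sub_cancel, Nat.cast_add, Nat.cast_one]
    field_simp
    ring
  have hwc : Continuous w := continuous_iff_continuousAt.mpr fun y => (hw' y).continuousAt
  set B := C ^ n * (1 + ∫ t, z t ^ 2) with hBdef
  have hBr : ∀ y, 0 ≤ y → |w y| ≤ B := by
    intro y hy
    have h1 := tail hq hpos hn hz hy
    rw [← hNr y] at h1
    simp only [hwdef]
    rw [abs_div, abs_of_pos (pow_pos (hpos y) n), div_le_iff₀ (pow_pos (hpos y) n)]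
    exact h1
  have hBl : ∀ y, 0 ≤ y → |w (-y)| ≤ B := by
    intro y hy
    have h1 := tail hq hpos hn hz.comp_neg hy
    have h2 : ∫ t in Ioi y, z (-t) * Q t ^ n = ∫ t in Iic (-y), z t * Q t ^ n := by
      have h3 := integral_comp_neg_Ioi y (fun t => z t * Q t ^ n)
      rw [← h3]
      refine setIntegral_congr_fun measurableSet_Ioi (fun t _ => ?_)
      show _ = _
      rw [hq.ev t]
    have h4 : ∫ t, z (-t) ^ 2 = ∫ t, z t ^ 2 := integral_neg_eq_self (fun t => z t ^ 2) volume
    rw [h2, h4] at h1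
    simp only [hwdef]
    rw [abs_div, abs_of_pos (pow_pos (hpos _) n), div_le_iff₀ (pow_pos (hpos _) n), hNl, abs_neg,
      hq.ev y]
    exact h1
  have hn' : (1 : ℝ) ≤ n := by exact_mod_cast hn
  have e1 : IntegrableOn (fun y => w y ^ 2) (Ioi 0) := energy hn' hw' hz hBr
  have e2 : IntegrableOn (fun y => w (-y) ^ 2) (Ioi 0) := by
    refine energy (w := fun y => w (-y)) (z := fun y => (-1) * z (-y)) (n := n) hn' (fun y => ?_)
      (hz.comp_neg.cmul (-1)) hBl
    have h1 := (hw' (-y)).comp y (hasDerivAt_neg y)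
    refine h1.congr_deriv ?_
    rw [T_neg]
    ring
  have e3 : IntegrableOn (fun y => w y ^ 2) (Iio 0) := by
    have h1 : MeasurePreserving (Neg.neg : ℝ → ℝ) volume volume :=
      Measure.measurePreserving_neg volume
    have h2 := (h1.integrableOn_comp_preimage (Homeomorph.neg ℝ).measurableEmbedding
      (f := fun y => w y ^ 2) (s := Iio 0)).mp ?_
    · exact h2
    · have h3 : (Neg.neg : ℝ → ℝ) ⁻¹' (Iio 0) = Ioi 0 := by
        ext y; simp
      rw [h3]
      exact e2
  refine ⟨w, ⟨hwc, ?_⟩, hw'⟩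
  have e4 : IntegrableOn (fun y => w y ^ 2) (Iic 0) :=
    (integrableOn_Iic_iff_integrableOn_Iio).mpr e3
  have := e4.union e1
  rwa [Iic_union_Ioi, integrableOn_univ] at this

theorem thm_COERC (hQ : S_QF) : S_COERC := by
  obtain ⟨C, hq⟩ := QB_of hQ
  obtain ⟨hQs, hpos, -, hQ4, hQd, hQdd, -, -⟩ := hQ
  intro f hf hfL hfL' h3 h1
  have lf : L2c f := ⟨hf.continuous, (memLp_two_iff_integrable_sq
    hf.continuous.aestronglyMeasurable).mp hfL⟩
  have hfc' : Continuous (deriv f) := hf.continuous_deriv le_rfl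
  have lf' : L2c (deriv f) := ⟨hfc', (memLp_two_iff_integrable_sq
    hfc'.aestronglyMeasurable).mp hfL'⟩
  have hfd : ∀ x, HasDerivAt f (deriv f x) x :=
    fun x => ((hf.differentiable one_ne_zero) x).hasDerivAt
  obtain ⟨w, lw, hw⟩ := solve hq hpos (n := 3) (by norm_num) lf h3
  have hw3 : ∀ y, HasDerivAt w (3 * T y * w y - f y) y := fun y => by
    have := hw y
    push_cast at this
    exact this
  have lTw : L2c (fun y => T y * w y) := L2c.bmul T_cont T_abs lw
  have lTf : L2c (fun y => T y * f y) := L2c.bmul T_cont T_abs lf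
  have lw' : L2c (fun y => 3 * T y * w y - f y) := by
    have := (lTw.cmul 3).add (lf.cmul (-1))
    refine ⟨this.1.congr fun y => by ring, this.2.congr (ae_of_all _ fun y => ?_)⟩
    show _ = _
    ring
  -- the profile and its derivatives
  have lQ : L2c Q := by
    have := G_L2 hq hpos (n := 1) le_rfl
    simpa using this
  have hQ'1 : ∀ y, deriv Q y = T y * ((-1) * Q y) := fun y => by
    rw [hQd y]; unfold T; ring
  have lQ' : L2c (deriv Q) := by
    have h := L2c.bmul T_cont T_abs (lQ.cmul (-1))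
    have e : deriv Q = fun y => T y * ((-1) * Q y) := funext hQ'1
    rw [e]; exact h
  have hS3 : ∀ y, Q y ^ 4 = 3 * S y := fun y => by
    rw [hQ4 y]; unfold S; ring
  have hQ''1 : ∀ y, deriv (deriv Q) y = (1 - 3 * S y) * Q y := fun y => by
    rw [hQdd y]
    have := hS3 y
    linear_combination (-(Q y)) * this
  have lQ'' : L2c (deriv (deriv Q)) := by
    have h : L2c (fun y => (1 - 3 * S y) * Q y) := by
      refine L2c.bmul (M := 2) (continuous_const.sub (continuous_const.mul S_cont)) (fun y => ?_) lQ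
      have h1 := S_nonneg y
      have h2 := S_le y
      rw [abs_le]; constructor <;> linarith
    have e : deriv (deriv Q) = fun y => (1 - 3 * S y) * Q y := funext hQ''1
    rw [e]; exact h
  have hQ'd : ∀ y, HasDerivAt (deriv Q) (deriv (deriv Q) y) y := fun y => by
    have h : ContDiff ℝ 2 Q := contDiff_infty.mp hQs 2
    have h2 : ContDiff ℝ 1 (deriv Q) := by
      have := (contDiff_succ_iff_deriv (n := 1)).mp (by simpa [one_add_one_eq_two] using h)
      exact this.2.2
    exact ((h2.differentiable one_ne_zero) y).hasDerivAt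
  -- orthogonality of `w` and `Q`
  have hwQ : ∫ y, w y * Q y ^ 1 = 0 := by
    have e1 := ibp hw3 hQ'd lw lQ' lw' lQ''
    have i1 : Integrable (fun y => w y * deriv (deriv Q) y) := lw.mul lQ''
    have i2 : Integrable (fun y => T y * w y * deriv Q y) := lTw.mul lQ'
    have i3 : Integrable (fun y => f y * deriv Q y) := lf.mul lQ'
    have e2 : ∫ y, (3 * T y * w y - f y) * deriv Q y
        = 3 * (∫ y, T y * w y * deriv Q y) - ∫ y, f y * deriv Q y := by
      rw [← integral_const_mul, ← integral_sub (i2.const_mul 3) i3]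
      refine integral_congr_ae (ae_of_all _ fun y => ?_)
      show _ = _
      ring
    rw [e2, h1, sub_zero] at e1
    have e3 : ∫ y, w y * Q y ^ 1 = (-1 / 2) * ((∫ y, w y * deriv (deriv Q) y)
        + 3 * ∫ y, T y * w y * deriv Q y) := by
      rw [← integral_const_mul, ← integral_add i1 (i2.const_mul 3), ← integral_const_mul]
      refine integral_congr_ae (ae_of_all _ fun y => ?_)
      show w y * Q y ^ 1 = -1 / 2 * (w y * deriv (deriv Q) y + 3 * (T y * w y * deriv Q y))
      rw [hQ''1, hQ'1]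
      have hT := T_sq y
      linear_combination (-(3 / 2) * (w y * Q y)) * hT
    rw [e3, e1]
    ring
  obtain ⟨χ, lχ, hχ⟩ := solve hq hpos (n := 1) le_rfl lw hwQ
  have hχ1 : ∀ y, HasDerivAt χ (T y * χ y - w y) y := fun y => by
    have := hχ y
    push_cast at this
    rw [one_mul] at this
    exact this
  have lTχ : L2c (fun y => T y * χ y) := L2c.bmul T_cont T_abs lχ
  have lχ' : L2c (fun y => T y * χ y - w y) := by
    have := lTχ.add (lw.cmul (-1))
    refine ⟨this.1.congr fun y => by ring, this.2.congr (ae_of_all _ fun y => ?_)⟩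
    show _ = _
    ring
  -- norms
  have isq : ∀ {u : ℝ → ℝ}, L2c u → Integrable (fun y => S y * u y ^ 2) := by
    intro u lu
    refine ((L2c.bmul S_cont S_abs lu).mul lu).congr (ae_of_all _ fun y => ?_)
    show _ = _
    ring
  have nonn : ∀ {u : ℝ → ℝ}, 0 ≤ ∫ y, S y * u y ^ 2 := by
    intro u
    exact integral_nonneg fun y => mul_nonneg (S_nonneg y) (sq_nonneg _)
  have exp3 : ∀ (u u' : ℝ → ℝ) (a c : ℝ), L2c u → L2c u' →
      ∫ y, (u' y ^ 2 + a * u y ^ 2 - c * (S y * u y ^ 2))
        = (∫ y, u' y ^ 2) + a * (∫ y, u y ^ 2) - c * ∫ y, S y * u y ^ 2 := by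
    intro u u' a c lu lu'
    have j1 : Integrable (fun y => a * u y ^ 2) := lu.2.const_mul a
    have j2 : Integrable (fun y => u' y ^ 2 + a * u y ^ 2) := lu'.2.add j1
    have j3 : Integrable (fun y => c * (S y * u y ^ 2)) := (isq lu).const_mul c
    rw [integral_sub j2 j3, integral_add lu'.2 j1, integral_const_mul, integral_const_mul]
  have nχ := normid (s := -1) (n := 1) (by norm_num) hχ1 lχ lχ'
  have nw := normid (s := -1) (n := 3) (by norm_num) hw3 lw lw'
  have nB := normid (s := 1) (n := 1) (by norm_num) hw3 lw lw'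
  have nA := normid (s := 1) (n := 3) (by norm_num) hfd lf lf'
  rw [exp3 _ _ _ _ lχ lχ'] at nχ
  rw [exp3 _ _ _ _ lw lw'] at nw nB
  rw [exp3 _ _ _ _ lf lf'] at nA
  have nχL : ∫ y, (-1 * (T y * χ y - w y) + 1 * T y * χ y) ^ 2 = ∫ y, w y ^ 2 := by
    refine integral_congr_ae (ae_of_all _ fun y => ?_)
    show _ = _
    ring
  have nwL : ∫ y, (-1 * (3 * T y * w y - f y) + 3 * T y * w y) ^ 2 = ∫ y, f y ^ 2 := by
    refine integral_congr_ae (ae_of_all _ fun y => ?_)
    show _ = _
    ring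
  rw [nχL] at nχ
  rw [nwL] at nw
  have sχ' : 0 ≤ ∫ y, (T y * χ y - w y) ^ 2 := integral_nonneg fun y => sq_nonneg _
  have Sχ : 0 ≤ ∫ y, S y * χ y ^ 2 := nonn
  -- step 2: `|B w| ≥ |w|`
  have lB : L2c (fun y => 1 * (3 * T y * w y - f y) + 1 * T y * w y) := by
    have := lw'.add lTw
    refine ⟨this.1.congr fun y => by ring, this.2.congr (ae_of_all _ fun y => ?_)⟩
    show _ = _
    ring
  have step2 : ∫ y, w y ^ 2
      ≤ ∫ y, (1 * (3 * T y * w y - f y) + 1 * T y * w y) ^ 2 := by
    have e1 := ibp hχ1 hw3 lχ lw lχ' lw'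
    have i1 : Integrable (fun y => χ y * (3 * T y * w y - f y)) := lχ.mul lw'
    have i2 : Integrable (fun y => T y * w y * χ y) := lTw.mul lχ
    have i3 : Integrable (fun y => (T y * χ y - w y) * w y) := lχ'.mul lw
    have e2 : ∫ y, w y ^ 2 = ∫ y, (1 * (3 * T y * w y - f y) + 1 * T y * w y) * χ y := by
      have e3 : ∫ y, (1 * (3 * T y * w y - f y) + 1 * T y * w y) * χ y
          = (∫ y, χ y * (3 * T y * w y - f y)) + ∫ y, T y * w y * χ y := by
        rw [← integral_add i1 i2]
        refine integral_congr_ae (ae_of_all _ fun y => ?_)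
        show _ = _
        ring
      have e4 : ∫ y, w y ^ 2 = (∫ y, T y * w y * χ y) - ∫ y, (T y * χ y - w y) * w y := by
        rw [← integral_sub i2 i3]
        refine integral_congr_ae (ae_of_all _ fun y => ?_)
        show _ = _
        ring
      rw [e3, e1, e4]; ring
    have e5 : ∫ y, (1 * (3 * T y * w y - f y) + 1 * T y * w y) * χ y
        ≤ ∫ y, ((1 / 2) * (1 * (3 * T y * w y - f y) + 1 * T y * w y) ^ 2
          + (1 / 2) * χ y ^ 2) := by
      refine integral_mono (lB.mul lχ) ((lB.2.const_mul _).add (lχ.2.const_mul _)) (fun y => ?_)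
      show _ ≤ _
      nlinarith [sq_nonneg ((1 * (3 * T y * w y - f y) + 1 * T y * w y) - χ y)]
    rw [integral_add (lB.2.const_mul _) (lχ.2.const_mul _), integral_const_mul,
      integral_const_mul] at e5
    linarith
  have step3 : 9 * ∫ y, w y ^ 2 ≤ ∫ y, f y ^ 2 := by linarith
  -- step 1
  have lA : L2c (fun y => 1 * deriv f y + 3 * T y * f y) := by
    have := lf'.add (lTf.cmul 3)
    refine ⟨this.1.congr fun y => by ring, this.2.congr (ae_of_all _ fun y => ?_)⟩
    show _ = _
    ring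
  have step1 : 9 * ∫ y, f y ^ 2 ≤ ∫ y, (1 * deriv f y + 3 * T y * f y) ^ 2 := by
    have e1 := ibp hw3 hfd lw lf lw' lf'
    have i1 : Integrable (fun y => w y * deriv f y) := lw.mul lf'
    have i2 : Integrable (fun y => T y * f y * w y) := lTf.mul lw
    have i3 : Integrable (fun y => (3 * T y * w y - f y) * f y) := lw'.mul lf
    have e2 : ∫ y, f y ^ 2 = ∫ y, (1 * deriv f y + 3 * T y * f y) * w y := by
      have e3 : ∫ y, (1 * deriv f y + 3 * T y * f y) * w y
          = (∫ y, w y * deriv f y) + 3 * ∫ y, T y * f y * w y := by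
        rw [← integral_const_mul, ← integral_add i1 (i2.const_mul 3)]
        refine integral_congr_ae (ae_of_all _ fun y => ?_)
        show _ = _
        ring
      have e4 : ∫ y, f y ^ 2 = 3 * (∫ y, T y * f y * w y)
          - ∫ y, (3 * T y * w y - f y) * f y := by
        rw [← integral_const_mul, ← integral_sub (i2.const_mul 3) i3]
        refine integral_congr_ae (ae_of_all _ fun y => ?_)
        show _ = _
        ring
      rw [e3, e1, e4]; ring
    have e5 : ∫ y, (1 * deriv f y + 3 * T y * f y) * w y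
        ≤ ∫ y, ((1 / 18) * (1 * deriv f y + 3 * T y * f y) ^ 2 + (9 / 2) * w y ^ 2) := by
      refine integral_mono (lA.mul lw) ((lA.2.const_mul _).add (lw.2.const_mul _)) (fun y => ?_)
      show _ ≤ _
      nlinarith [sq_nonneg ((1 * deriv f y + 3 * T y * f y) - 9 * w y)]
    rw [integral_add (lA.2.const_mul _) (lw.2.const_mul _), integral_const_mul,
      integral_const_mul] at e5
    linarith
  have hΛ : ∫ y, (deriv f y ^ 2 + f y ^ 2 - 5 * Q y ^ 4 * f y ^ 2)
      = (∫ y, deriv f y ^ 2) + 1 * (∫ y, f y ^ 2) - 15 * ∫ y, S y * f y ^ 2 := by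
    rw [← exp3 f (deriv f) 1 15 lf lf']
    refine integral_congr_ae (ae_of_all _ fun y => ?_)
    show deriv f y ^ 2 + f y ^ 2 - 5 * Q y ^ 4 * f y ^ 2
      = deriv f y ^ 2 + 1 * f y ^ 2 - 15 * (S y * f y ^ 2)
    rw [hS3 y]
    ring
  have hH : ∫ y, (deriv f y ^ 2 + f y ^ 2) = (∫ y, deriv f y ^ 2) + ∫ y, f y ^ 2 :=
    integral_add lf'.2 lf.2
  have hSle : ∫ y, S y * f y ^ 2 ≤ ∫ y, f y ^ 2 := by
    refine integral_mono (isq lf) lf.2 (fun y => ?_)
    show _ ≤ _
    nlinarith [S_le y, sq_nonneg (f y)]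
  rw [hΛ, hH]
  constructor
  · linarith
  · linarith

end Pool.Agent.Helper54.KV
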