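import Pool.Agent.Helper33.KV.GoalsF2

/-! PACKET KV-F-INIT for MP_66be51_an (helper33): initial values of the bootstrap. -/

set_option autoImplicit false

open Real MeasureTheory Set Filter Topology
open Pool.Agent.Helper41.KV Pool.Agent.Helper33.KV

namespace Pool.Agent.Helper54.KV

private lemma exp_half_int : Integrable (fun y : ℝ => Real.exp (-|y| / 2)) := by
  have h1 : IntegrableOn (fun y : ℝ => Real.exp (-|y|)) (Iic 0) := by
    refine (integrableOn_exp_Iic 0).congr_fun (fun y hy => ?_) measurableSet_Iic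
    show Real.exp y = Real.exp (-|y|)
    rw [abs_of_nonpos hy, neg_neg]
  have h2 : IntegrableOn (fun y : ℝ => Real.exp (-|y|)) (Ioi 0) := by
    refine (integrableOn_exp_neg_Ioi 0).congr_fun (fun y hy => ?_) measurableSet_Ioi
    show Real.exp (-y) = Real.exp (-|y|)
    rw [abs_of_pos hy]
  have h3 : Integrable (fun y : ℝ => Real.exp (-|y|)) := by
    have := h1.union h2
    rwa [Iic_union_Ioi, integrableOn_univ] at this
  have h4 := h3.comp_mul_left' (R := 1 / 2) (by norm_num)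
  refine h4.congr (ae_of_all _ fun y => ?_)
  show Real.exp (-|1 / 2 * y|) = Real.exp (-|y| / 2)
  rw [abs_mul, abs_of_pos (by norm_num : (0:ℝ) < 1 / 2)]
  ring_nf

private lemma g_deriv_zero {g : ℝ → ℝ} (hg0 : ∀ x, -1 ≤ x → g x = 0) {x : ℝ} (hx : -1 < x) :
    deriv g x = 0 := by
  have h1 : g =ᶠ[𝓝 x] fun _ => 0 := by
    filter_upwards [Ioi_mem_nhds hx] with z hz
    exact hg0 z (le_of_lt hz)
  rw [h1.deriv_eq]
  simp

private lemma h_int {g : ℝ → ℝ} (hg : ContDiff ℝ (⊤ : ℕ∞) g) (hg0 : ∀ x, -1 ≤ x → g x = 0)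
    (h2 : MemLp g 2) (h2' : MemLp (deriv g) 2) :
    Integrable (fun x => (g x ^ 2 + deriv g x ^ 2) * Real.exp x) := by
  have hgc : Continuous g := hg.continuous
  have hgc' : Continuous (deriv g) := hg.continuous_deriv (by simp)
  have i1 := (memLp_two_iff_integrable_sq hgc.aestronglyMeasurable).mp h2
  have i2 := (memLp_two_iff_integrable_sq hgc'.aestronglyMeasurable).mp h2'
  refine (i1.add i2).mono' (((hgc.pow 2).add (hgc'.pow 2)).mul
    Real.continuous_exp).aestronglyMeasurable (ae_of_all _ fun x => ?_)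
  rw [Real.norm_eq_abs, abs_of_nonneg (by positivity)]
  show _ ≤ g x ^ 2 + deriv g x ^ 2
  rcases lt_or_ge (-1) x with hx | hx
  · rw [hg0 x hx.le, g_deriv_zero hg0 hx]
    simp
  · have : Real.exp x ≤ 1 := Real.exp_le_one_iff.mpr (by linarith)
    exact mul_le_of_le_one_right (by positivity) this

/-- the rescaled density -/
private noncomputable def HH (lm sg : ℝ) (g : ℝ → ℝ) (y : ℝ) : ℝ :=
  lm * ((g (sg + lm * y) ^ 2 + deriv g (sg + lm * y) ^ 2) * Real.exp (sg + lm * y))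

private lemma HH_nonneg {lm sg : ℝ} {g : ℝ → ℝ} (hl : 0 < lm) (y : ℝ) : 0 ≤ HH lm sg g y := by
  unfold HH; positivity

private lemma HH_int {lm sg : ℝ} {g : ℝ → ℝ} (hl : 0 < lm)
    (hi : Integrable (fun x => (g x ^ 2 + deriv g x ^ 2) * Real.exp x))
    (h1 : (∫ x, (g x ^ 2 + deriv g x ^ 2) * Real.exp x) ≤ 1) :
    Integrable (HH lm sg g) ∧ (∫ y, HH lm sg g y) ≤ 1 := by
  have e1 := (hi.comp_add_left sg).comp_mul_left' hl.ne'
  refine ⟨e1.const_mul lm, ?_⟩
  unfold HH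
  rw [integral_const_mul]
  have e2 := Measure.integral_comp_mul_left
    (fun y => (g (sg + y) ^ 2 + deriv g (sg + y) ^ 2) * Real.exp (sg + y)) lm
  rw [e2, integral_add_left_eq_self (fun y => (g y ^ 2 + deriv g y ^ 2) * Real.exp y) sg,
    smul_eq_mul, abs_of_pos (inv_pos.mpr hl), ← mul_assoc, mul_inv_cancel₀ hl.ne', one_mul]
  exact h1

private lemma P1 {lm sg : ℝ} {g : ℝ → ℝ} (hl : 0 < lm) (hs : 0 < sg) (h4 : 4 * lm ≤ 1)
    (hg0 : ∀ x, -1 ≤ x → g x = 0) (y : ℝ) :
    (Real.sqrt lm * g (sg + lm * y)) ^ 2 * Real.exp (-|y| / 2)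
      ≤ Real.exp (-1 / (4 * lm)) * HH lm sg g y := by
  rcases lt_or_ge (-1) (sg + lm * y) with hx | hx
  · rw [hg0 _ hx.le]
    have := HH_nonneg (g := g) (sg := sg) hl y
    simpa using mul_nonneg (Real.exp_pos _).le this
  · set x := sg + lm * y with hxd
    have hyx : y ≤ x / lm := by
      rw [le_div_iff₀ hl]; linarith
    have hy0 : y < 0 := by
      by_contra hc
      push Not at hc
      have := mul_nonneg hl.le hc
      linarith
    have hexp : Real.exp (-|y| / 2) ≤ Real.exp (-1 / (4 * lm)) * Real.exp x := by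
      rw [← Real.exp_add]
      refine Real.exp_le_exp.mpr ?_
      rw [abs_of_neg hy0]
      have h1 : x / (2 * lm) ≤ -1 / (4 * lm) + x := by
        have h2 : -1 / (4 * lm) + x = (-1 + 4 * lm * x) / (4 * lm) := by
          field_simp
        have h3 : x / (2 * lm) = (2 * x) / (4 * lm) := by
          field_simp
          ring
        rw [h2, h3]
        refine div_le_div_of_nonneg_right ?_ (by positivity)
        nlinarith
      have h4 : x / (2 * lm) = x / lm / 2 := by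
        field_simp
      linarith
    have hsq : (Real.sqrt lm * g x) ^ 2 = lm * g x ^ 2 := by
      rw [mul_pow, Real.sq_sqrt hl.le]
    rw [hsq]
    unfold HH
    rw [← hxd]
    calc lm * g x ^ 2 * Real.exp (-|y| / 2)
        ≤ lm * g x ^ 2 * (Real.exp (-1 / (4 * lm)) * Real.exp x) :=
          mul_le_mul_of_nonneg_left hexp (by positivity)
      _ ≤ lm * (g x ^ 2 + deriv g x ^ 2) * (Real.exp (-1 / (4 * lm)) * Real.exp x) := by
          refine mul_le_mul_of_nonneg_right (mul_le_mul_of_nonneg_left ?_ hl.le) (by positivity)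
          linarith [sq_nonneg (deriv g x)]
      _ = _ := by ring

private lemma P2 {lm sg ρ K : ℝ} {g : ℝ → ℝ} (hl : 0 < lm) (hs : 0 < sg) (hρ : 0 < ρ)
    (hK : 64 ≤ K) (h4 : 2 * K * lm ≤ 1)
    (hg0 : ∀ x, -1 ≤ x → g x = 0) (y : ℝ) :
    wt K ρ y * ((Real.sqrt lm * (lm * deriv g (sg + lm * y))) ^ 2
        + (Real.sqrt lm * g (sg + lm * y)) ^ 2)
      ≤ ρ⁻¹ * Real.exp (-1 / (2 * K * lm)) * HH lm sg g y := by
  have hK0 : 0 < K := by linarith
  have hl1 : lm ≤ 1 := by nlinarith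
  rcases lt_or_ge (-1) (sg + lm * y) with hx | hx
  · rw [hg0 _ hx.le, g_deriv_zero hg0 hx]
    have := HH_nonneg (g := g) (sg := sg) hl y
    simp only [mul_zero, ne_eq, OfNat.ofNat_ne_zero, not_false_eq_true, zero_pow, add_zero]
    positivity
  · set x := sg + lm * y with hxd
    have hyx : y ≤ x / lm := by
      rw [le_div_iff₀ hl]; linarith
    have hexp : wt K ρ y ≤ ρ⁻¹ * (Real.exp (-1 / (2 * K * lm)) * Real.exp x) := by
      have w1 : wt K ρ y ≤ ρ⁻¹ * Real.exp (y / K) := by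
        unfold wt
        have h1 : ρ⁻¹ * Real.exp (y / K) = 1 / (ρ * Real.exp (-(y / K))) := by
          rw [Real.exp_neg]
          field_simp
        rw [h1]
        refine one_div_le_one_div_of_le (by positivity) (by linarith)
      refine w1.trans (mul_le_mul_of_nonneg_left ?_ (inv_pos.mpr hρ).le)
      rw [← Real.exp_add]
      refine Real.exp_le_exp.mpr ?_
      have h1 : x / lm / K ≤ -1 / (2 * K * lm) + x := by
        have h2 : -1 / (2 * K * lm) + x = (-1 + 2 * K * lm * x) / (2 * K * lm) := by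
          field_simp
        have h3 : x / lm / K = (2 * x) / (2 * K * lm) := by
          field_simp
        rw [h2, h3]
        refine div_le_div_of_nonneg_right ?_ (by positivity)
        nlinarith
      exact (div_le_div_of_nonneg_right hyx hK0.le).trans h1
    have hsq : (Real.sqrt lm * (lm * deriv g x)) ^ 2 + (Real.sqrt lm * g x) ^ 2
        ≤ lm * (g x ^ 2 + deriv g x ^ 2) := by
      have h1 : lm ^ 2 ≤ 1 := by nlinarith
      have h2 : lm ^ 2 * deriv g x ^ 2 ≤ deriv g x ^ 2 :=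
        mul_le_of_le_one_left (sq_nonneg _) h1
      calc (Real.sqrt lm * (lm * deriv g x)) ^ 2 + (Real.sqrt lm * g x) ^ 2
          = Real.sqrt lm ^ 2 * (lm ^ 2 * deriv g x ^ 2 + g x ^ 2) := by ring
        _ = lm * (lm ^ 2 * deriv g x ^ 2 + g x ^ 2) := by rw [Real.sq_sqrt hl.le]
        _ ≤ lm * (g x ^ 2 + deriv g x ^ 2) :=
          mul_le_mul_of_nonneg_left (by linarith) hl.le
    have hw0 : 0 ≤ wt K ρ y := by unfold wt; positivity
    unfold HH
    rw [← hxd]
    calc wt K ρ y * ((Real.sqrt lm * (lm * deriv g x)) ^ 2 + (Real.sqrt lm * g x) ^ 2)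
        ≤ (ρ⁻¹ * (Real.exp (-1 / (2 * K * lm)) * Real.exp x)) * (lm * (g x ^ 2 + deriv g x ^ 2)) :=
          mul_le_mul hexp hsq (by positivity) (by positivity)
      _ = _ := by ring

private lemma tri (x y z : ℝ) : (x - y - z) ^ 2 ≤ 3 * (x ^ 2 + y ^ 2 + z ^ 2) := by
  nlinarith [sq_nonneg (x + y), sq_nonneg (x + z), sq_nonneg (y - z)]

/-- smallness -/
private lemma small (K M C0 : ℝ) (N0 : ℕ) (hK : 64 ≤ K) (hM : 0 ≤ M) (hC0 : 0 < C0) :
    ∃ ρ0 : ℝ, 0 < ρ0 ∧ ∀ ρ, 0 < ρ → ρ ≤ ρ0 →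
      M * (ρ⁻¹ * Real.exp (-1 / (2 * K * ρ))) ≤ ρ ^ (2 * N0) / C0 := by
  set k := 2 * N0 + 2 with hk
  set D : ℝ := (Nat.factorial k : ℝ) * (2 * K) ^ k with hD
  have hD0 : 0 ≤ D := by positivity
  refine ⟨1 / (C0 * M * D + 1), by positivity, fun ρ hρ hρ0 => ?_⟩
  have h1 : Real.exp (-1 / (2 * K * ρ)) ≤ D * ρ ^ k := by
    have hx : 0 ≤ 1 / (2 * K * ρ) := by positivity
    have h2 := Real.pow_div_factorial_le_exp _ hx k
    rw [show -1 / (2 * K * ρ) = -(1 / (2 * K * ρ)) by ring, Real.exp_neg]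
    have h3 : 0 < (1 / (2 * K * ρ)) ^ k / (Nat.factorial k : ℝ) := by positivity
    refine (inv_anti₀ h3 h2).trans (le_of_eq ?_)
    rw [hD, div_pow, one_pow, mul_pow]
    field_simp
  have h4 : ρ⁻¹ * (D * ρ ^ k) = D * ρ * ρ ^ (2 * N0) := by
    rw [hk, pow_add]
    field_simp
  have h5 : C0 * M * D * ρ ≤ 1 := by
    rw [le_div_iff₀ (by positivity)] at hρ0
    nlinarith
  rw [le_div_iff₀ hC0]
  calc M * (ρ⁻¹ * Real.exp (-1 / (2 * K * ρ))) * C0
      ≤ M * (ρ⁻¹ * (D * ρ ^ k)) * C0 := by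
        refine mul_le_mul_of_nonneg_right (mul_le_mul_of_nonneg_left
          (mul_le_mul_of_nonneg_left h1 (inv_pos.mpr hρ).le) hM) hC0.le
    _ = (C0 * M * D * ρ) * ρ ^ (2 * N0) := by rw [h4]; ring
    _ ≤ 1 * ρ ^ (2 * N0) := mul_le_mul_of_nonneg_right h5 (by positivity)
    _ = ρ ^ (2 * N0) := one_mul _

theorem thm_INIT (hC : S_CURVE) (hT : S_TAUB) : S_INIT := by
  intro α N0 K T C C0 n Z Y V2 W Wt r r' hα hα1 hK hT0 hρT hC0 hZ hY hV hBg C1
  obtain ⟨hE, CT, ρT, hρT0, hρT1, hTb⟩ := hT α Z Y V2 hZ hY hV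
  set E0 : ℝ := ∫ y : ℝ, Real.exp (-|y| / 2) with hE0
  have hE00 : 0 ≤ E0 := integral_nonneg fun y => (Real.exp_pos _).le
  set M1 : ℝ := |C1| * (1 + E0) / 2 with hM1
  have hM10 : 0 ≤ M1 := by positivity
  set CA : ℝ := |CT| with hCA
  have hCA0 : 0 ≤ CA := abs_nonneg _
  set M : ℝ := M1 + (CA * (1 + E0) / 2 + 2 * M1 * CA ^ 2 * E0) + (3 + 12 * CA ^ 2 * M1 ^ 2 * E0)
    with hM
  have hM0 : 0 ≤ M := by positivity
  obtain ⟨ρ0, hρ00, hsm⟩ := small K M C0 N0 hK hM0 hC0
  have hK0 : 0 < K := by linarith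
  refine ⟨min ρ0 (min ρT (1 / (2 * K))), by positivity, ?_⟩
  intro u t1 ht1 ht1T hρ1 g hg hu hg0 hg2 hg2' hgE a b hab
  obtain ⟨hsig, hlam, hrho, hlr, -⟩ := (hC α hα hα1).1 t1 ht1
  set ρ := rho α t1 with hρdef
  set lm := lam α t1 with hlmdef
  set sg := sig α t1 with hsgdef
  have hρρ0 : ρ ≤ ρ0 := hρ1.trans (min_le_left _ _)
  have hρρT : ρ ≤ ρT := hρ1.trans ((min_le_right _ _).trans (min_le_left _ _))
  have hρK : ρ ≤ 1 / (2 * K) := hρ1.trans ((min_le_right _ _).trans (min_le_right _ _))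
  have hρle1 : ρ ≤ 1 := hρρT.trans hρT1
  have hsg1 : sg ≤ 1 := by
    by_contra hc
    push Not at hc
    have : 1 < sg ^ (2 * α) := Real.one_lt_rpow hc (by linarith)
    have h2 : ρ = sg ^ (2 * α) := rfl
    linarith
  have hlρ : lm ≤ ρ := by
    rw [hlr]
    exact mul_le_of_le_one_left hrho.le hsg1
  have h2K : 2 * K * lm ≤ 1 := by
    have h1 : 2 * K * lm ≤ 2 * K * (1 / (2 * K)) :=
      mul_le_mul_of_nonneg_left (hlρ.trans hρK) (by positivity)
    have h2 : 2 * K * (1 / (2 * K)) = 1 := by field_simp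
    linarith
  have h4l : 4 * lm ≤ 1 :=
    (mul_le_mul_of_nonneg_right (by linarith : (4:ℝ) ≤ 2 * K) hlam.le).trans h2K
  -- the exponentials
  set w : ℝ := Real.exp (-1 / (2 * K * ρ)) with hw
  have hw0 : 0 < w := Real.exp_pos _
  set s : ℝ := Real.exp (-1 / (8 * lm)) with hs
  have hs0 : 0 < s := Real.exp_pos _
  have hs1 : s ≤ 1 := Real.exp_le_one_iff.mpr (by
    rw [neg_div]; exact neg_nonpos.mpr (by positivity))
  have hss : Real.exp (-1 / (4 * lm)) = s * s := by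
    rw [hs, ← Real.exp_add]
    congr 1
    field_simp
    norm_num
  have hexw : Real.exp (-1 / (2 * K * lm)) ≤ w := by
    refine Real.exp_le_exp.mpr ?_
    rw [neg_div, neg_div]
    refine neg_le_neg (one_div_le_one_div_of_le (by positivity) ?_)
    exact mul_le_mul_of_nonneg_left hlρ (by positivity)
  have hsw : s ≤ w := by
    refine Real.exp_le_exp.mpr ?_
    rw [neg_div, neg_div]
    refine neg_le_neg (one_div_le_one_div_of_le (by positivity) ?_)
    have h1 : 8 * lm ≤ 8 * ρ := by linarith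
    have h2 : 8 * ρ ≤ 2 * K * ρ := mul_le_mul_of_nonneg_right (by linarith) hrho.le
    linarith
  have hwρ : w ≤ ρ⁻¹ * w := by
    have : 1 ≤ ρ⁻¹ := (one_le_inv₀ hrho).mpr hρle1
    exact le_mul_of_one_le_left hw0.le this
  have hfin : M * (ρ⁻¹ * w) ≤ ρ ^ (2 * N0) / C0 := hsm ρ hrho hρρ0
  -- the density
  obtain ⟨hHi, hH1⟩ := HH_int (sg := sg) hlam (h_int hg hg0 hg2 hg2') hgE
  set G : ℝ → ℝ := fun y => Real.sqrt lm * g (sg + lm * y) with hG
  have hGeq : ∀ y, inn α u t1 y - inn α W t1 y = G y := by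
    intro y
    simp only [inn, hG]
    rw [hu]
    ring
  have hGa : ∀ y, |G y| * Real.exp (-|y| / 2) ≤ s / 2 * (HH lm sg g y + Real.exp (-|y| / 2)) := by
    intro y
    have h1 := P1 hlam hsig h4l hg0 y
    rw [hss] at h1
    have h1' : G y ^ 2 * Real.exp (-|y| / 2) ≤ s * s * HH lm sg g y := h1
    have h2 : |G y| ≤ (1 / 2) * (s⁻¹ * G y ^ 2 + s) := by
      have h3 : 0 ≤ s⁻¹ * (|G y| - s) ^ 2 := by positivity
      have h4 : s⁻¹ * (|G y| - s) ^ 2 = s⁻¹ * G y ^ 2 + s - 2 * |G y| := by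
        rw [← sq_abs (G y)]
        field_simp
        ring
      linarith
    calc |G y| * Real.exp (-|y| / 2)
        ≤ (1 / 2) * (s⁻¹ * G y ^ 2 + s) * Real.exp (-|y| / 2) :=
          mul_le_mul_of_nonneg_right h2 (Real.exp_pos _).le
      _ = (1 / 2) * s⁻¹ * (G y ^ 2 * Real.exp (-|y| / 2)) + s / 2 * Real.exp (-|y| / 2) := by ring
      _ ≤ (1 / 2) * s⁻¹ * (s * s * HH lm sg g y) + s / 2 * Real.exp (-|y| / 2) := by
          gcongr
      _ = _ := by field_simp
  have hRi : Integrable (fun y => s / 2 * (HH lm sg g y + Real.exp (-|y| / 2))) :=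
    (hHi.add exp_half_int).const_mul _
  have hRv : ∫ y, s / 2 * (HH lm sg g y + Real.exp (-|y| / 2)) ≤ s / 2 * (1 + E0) := by
    rw [integral_const_mul, integral_add hHi exp_half_int]
    exact mul_le_mul_of_nonneg_left (by linarith) (by positivity)
  have hI1 : ∫ y, |inn α u t1 y - inn α W t1 y| * Real.exp (-|y| / 2) ≤ s / 2 * (1 + E0) := by
    refine le_trans (integral_mono_of_nonneg (ae_of_all _ fun y => ?_) hRi
      (ae_of_all _ fun y => ?_)) hRv
    · show 0 ≤ _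
      positivity
    · show |inn α u t1 y - inn α W t1 y| * Real.exp (-|y| / 2) ≤ _
      rw [hGeq]
      exact hGa y
  have hI0 : 0 ≤ ∫ y, |inn α u t1 y - inn α W t1 y| * Real.exp (-|y| / 2) :=
    integral_nonneg fun y => by positivity
  have habs : |a t1| + |b t1| ≤ M1 * s := by
    calc |a t1| + |b t1| ≤ C1 * ∫ y, |inn α u t1 y - inn α W t1 y| * Real.exp (-|y| / 2) := hab
      _ ≤ |C1| * ∫ y, |inn α u t1 y - inn α W t1 y| * Real.exp (-|y| / 2) :=
          mul_le_mul_of_nonneg_right (le_abs_self _) hI0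
      _ ≤ |C1| * (s / 2 * (1 + E0)) := mul_le_mul_of_nonneg_left hI1 (abs_nonneg _)
      _ = M1 * s := by rw [hM1]; ring
  have ha0 := abs_nonneg (a t1)
  have hb0 := abs_nonneg (b t1)
  have hM1s : M1 * s ≤ M * (ρ⁻¹ * w) := by
    have h1 : M1 ≤ M := by
      rw [hM]
      have : 0 ≤ (CA * (1 + E0) / 2 + 2 * M1 * CA ^ 2 * E0) + (3 + 12 * CA ^ 2 * M1 ^ 2 * E0) := by
        positivity
      linarith
    exact mul_le_mul h1 (hsw.trans hwρ) hs0.le hM0
  -- the tangent vectors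
  have hexpc : ∀ y : ℝ, Real.exp (-(3 / 4) * |y|) ≤ Real.exp (-|y| / 2) := fun y =>
    Real.exp_le_exp.mpr (by have := abs_nonneg y; linarith)
  have hexp1 : ∀ y : ℝ, Real.exp (-|y| / 2) ≤ 1 := fun y =>
    Real.exp_le_one_iff.mpr (by have := abs_nonneg y; linarith)
  have htb := (hTb ρ hrho.le hρρT).1
  have hA0 : ∀ y, |tauA α Z ρ y| ≤ CA * Real.exp (-|y| / 2) := fun y => by
    have h1 := (htb 0 (by norm_num) y).1
    rw [iteratedDeriv_zero] at h1
    calc _ ≤ CT * Real.exp (-(3 / 4) * |y|) := h1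
      _ ≤ CA * Real.exp (-(3 / 4) * |y|) :=
        mul_le_mul_of_nonneg_right (le_abs_self _) (Real.exp_pos _).le
      _ ≤ _ := mul_le_mul_of_nonneg_left (hexpc y) hCA0
  have hB0 : ∀ y, |tauB α Z V2 ρ y| ≤ CA * Real.exp (-|y| / 2) := fun y => by
    have h1 := (htb 0 (by norm_num) y).2.1
    rw [iteratedDeriv_zero] at h1
    calc _ ≤ CT * Real.exp (-(3 / 4) * |y|) := h1
      _ ≤ CA * Real.exp (-(3 / 4) * |y|) :=
        mul_le_mul_of_nonneg_right (le_abs_self _) (Real.exp_pos _).le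
      _ ≤ _ := mul_le_mul_of_nonneg_left (hexpc y) hCA0
  have hTh0 : ∀ y, |Th α Y ρ y| ≤ CA * Real.exp (-|y| / 2) := fun y => by
    have h1 := (htb 0 (by norm_num) y).2.2.1
    rw [iteratedDeriv_zero] at h1
    calc _ ≤ CT * Real.exp (-(3 / 4) * |y|) := h1
      _ ≤ CA * Real.exp (-(3 / 4) * |y|) :=
        mul_le_mul_of_nonneg_right (le_abs_self _) (Real.exp_pos _).le
      _ ≤ _ := mul_le_mul_of_nonneg_left (hexpc y) hCA0
  have hA1 : ∀ y, |deriv (tauA α Z ρ) y| ≤ CA * Real.exp (-|y| / 2) := fun y => by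
    have h1 := (htb 1 (by norm_num) y).1
    rw [iteratedDeriv_one] at h1
    calc _ ≤ CT * Real.exp (-(3 / 4) * |y|) := h1
      _ ≤ CA * Real.exp (-(3 / 4) * |y|) :=
        mul_le_mul_of_nonneg_right (le_abs_self _) (Real.exp_pos _).le
      _ ≤ _ := mul_le_mul_of_nonneg_left (hexpc y) hCA0
  have hB1 : ∀ y, |deriv (tauB α Z V2 ρ) y| ≤ CA * Real.exp (-|y| / 2) := fun y => by
    have h1 := (htb 1 (by norm_num) y).2.1
    rw [iteratedDeriv_one] at h1
    calc _ ≤ CT * Real.exp (-(3 / 4) * |y|) := h1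
      _ ≤ CA * Real.exp (-(3 / 4) * |y|) :=
        mul_le_mul_of_nonneg_right (le_abs_self _) (Real.exp_pos _).le
      _ ≤ _ := mul_le_mul_of_nonneg_left (hexpc y) hCA0
  have hsqb : ∀ (x y : ℝ), |x| ≤ CA * Real.exp (-|y| / 2) → x ^ 2 ≤ CA ^ 2 * Real.exp (-|y| / 2) := by
    intro x y h
    rw [← sq_abs]
    calc |x| ^ 2 ≤ (CA * Real.exp (-|y| / 2)) ^ 2 := pow_le_pow_left₀ (abs_nonneg _) h 2
      _ = CA ^ 2 * (Real.exp (-|y| / 2) * Real.exp (-|y| / 2)) := by ring
      _ ≤ CA ^ 2 * (Real.exp (-|y| / 2) * 1) := by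
          gcongr
          exact hexp1 y
      _ = _ := by ring
  have het : ∀ y, etaI α Z V2 u W a b t1 y = G y - a t1 * tauA α Z ρ y - b t1 * tauB α Z V2 ρ y := by
    intro y
    unfold etaI
    rw [hGeq y]
  have hetf : etaI α Z V2 u W a b t1
      = fun y => G y - a t1 * tauA α Z ρ y - b t1 * tauB α Z V2 ρ y := funext het
  have hGd : ∀ y, HasDerivAt G (Real.sqrt lm * (lm * deriv g (sg + lm * y))) y := by
    intro y
    have h1 : HasDerivAt (fun y : ℝ => sg + lm * y) lm y := by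
      simpa using ((hasDerivAt_id y).const_mul lm).const_add sg
    have h2 : HasDerivAt g (deriv g (sg + lm * y)) (sg + lm * y) :=
      ((hg.differentiable (by simp)) _).hasDerivAt
    have h3 := (h2.comp y h1).const_mul (Real.sqrt lm)
    refine h3.congr_deriv ?_
    ring
  have hedd : ∀ y, deriv (etaI α Z V2 u W a b t1) y = Real.sqrt lm * (lm * deriv g (sg + lm * y))
      - a t1 * deriv (tauA α Z ρ) y - b t1 * deriv (tauB α Z V2 ρ) y := by
    intro y
    rw [hetf]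
    have h1 : HasDerivAt (tauA α Z ρ) (deriv (tauA α Z ρ) y) y :=
      (((hE ρ).1.1.differentiable (by simp)) y).hasDerivAt
    have h2 : HasDerivAt (tauB α Z V2 ρ) (deriv (tauB α Z V2 ρ) y) y :=
      (((hE ρ).2.1.1.differentiable (by simp)) y).hasDerivAt
    exact (((hGd y).sub (h1.const_mul _)).sub (h2.const_mul _)).deriv
  refine ⟨by linarith, by linarith, ?_, ?_⟩
  · -- the pairing
    have hqi : Integrable (fun y => CA * (s / 2 * (HH lm sg g y + Real.exp (-|y| / 2)))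
        + (M1 * s) * (CA ^ 2 * Real.exp (-|y| / 2)) * 2) :=
      (hRi.const_mul CA).add (((exp_half_int.const_mul _).const_mul _).mul_const 2)
    have hq1 : |qq α Y (etaI α Z V2 u W a b) t1| ≤ ∫ y, (CA * (s / 2 * (HH lm sg g y
        + Real.exp (-|y| / 2))) + (M1 * s) * (CA ^ 2 * Real.exp (-|y| / 2)) * 2) := by
      unfold qq
      rw [← Real.norm_eq_abs]
      refine norm_integral_le_of_norm_le hqi (ae_of_all _ fun y => ?_)
      rw [Real.norm_eq_abs, abs_mul, het y]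
      have e1 : |G y - a t1 * tauA α Z ρ y - b t1 * tauB α Z V2 ρ y|
          ≤ |G y| + |a t1| * |tauA α Z ρ y| + |b t1| * |tauB α Z V2 ρ y| := by
        rw [← abs_mul, ← abs_mul]
        exact (abs_sub _ _).trans (add_le_add_left (abs_sub _ _) _)
      have e2 := hGa y
      have hex := Real.exp_pos (-|y| / 2)
      have hT0' := hTh0 y
      have e3 : |a t1| * |tauA α Z ρ y| ≤ (M1 * s) * (CA * Real.exp (-|y| / 2)) :=
        mul_le_mul (by linarith) (hA0 y) (abs_nonneg _) (by positivity)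
      have e4 : |b t1| * |tauB α Z V2 ρ y| ≤ (M1 * s) * (CA * Real.exp (-|y| / 2)) :=
        mul_le_mul (by linarith) (hB0 y) (abs_nonneg _) (by positivity)
      calc |G y - a t1 * tauA α Z ρ y - b t1 * tauB α Z V2 ρ y| * |Th α Y ρ y|
          ≤ (|G y| + (M1 * s) * (CA * Real.exp (-|y| / 2)) + (M1 * s) * (CA * Real.exp (-|y| / 2)))
            * (CA * Real.exp (-|y| / 2)) := by
            refine mul_le_mul ?_ hT0' (abs_nonneg _) (by positivity)
            linarith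
        _ = CA * (|G y| * Real.exp (-|y| / 2))
            + (M1 * s) * (CA ^ 2 * (Real.exp (-|y| / 2) * Real.exp (-|y| / 2))) * 2 := by ring
        _ ≤ CA * (s / 2 * (HH lm sg g y + Real.exp (-|y| / 2)))
            + (M1 * s) * (CA ^ 2 * (Real.exp (-|y| / 2) * 1)) * 2 := by
            gcongr
            exact hexp1 y
        _ = _ := by ring
    have hq2 : ∫ y, (CA * (s / 2 * (HH lm sg g y
        + Real.exp (-|y| / 2))) + (M1 * s) * (CA ^ 2 * Real.exp (-|y| / 2)) * 2)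
        ≤ CA * (s / 2 * (1 + E0)) + (M1 * s) * (CA ^ 2 * E0) * 2 := by
      have j1 : ∫ y : ℝ, (M1 * s) * (CA ^ 2 * Real.exp (-|y| / 2)) * 2
          = (M1 * s) * (CA ^ 2 * E0) * 2 := by
        rw [integral_mul_const, integral_const_mul, integral_const_mul]
      have j2 : ∫ y, CA * (s / 2 * (HH lm sg g y + Real.exp (-|y| / 2)))
          ≤ CA * (s / 2 * (1 + E0)) := by
        rw [integral_const_mul]
        exact mul_le_mul_of_nonneg_left hRv hCA0
      rw [integral_add (hRi.const_mul CA) (((exp_half_int.const_mul _).const_mul _).mul_const 2),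
        j1]
      exact add_le_add_left j2 _
    have hq3 : CA * (s / 2 * (1 + E0)) + (M1 * s) * (CA ^ 2 * E0) * 2
        = (CA * (1 + E0) / 2 + 2 * M1 * CA ^ 2 * E0) * s := by ring
    have hq4 : (CA * (1 + E0) / 2 + 2 * M1 * CA ^ 2 * E0) * s ≤ M * (ρ⁻¹ * w) := by
      have h1 : (CA * (1 + E0) / 2 + 2 * M1 * CA ^ 2 * E0) ≤ M := by
        rw [hM]
        have : 0 ≤ M1 + (3 + 12 * CA ^ 2 * M1 ^ 2 * E0) := by positivity
        linarith
      exact mul_le_mul h1 (hsw.trans hwρ) hs0.le hM0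
    linarith
  · -- the weighted norm
    have hhi : Integrable (fun y => 3 * (ρ⁻¹ * w * HH lm sg g y
        + (M1 * s) ^ 2 * (4 * (CA ^ 2 * Real.exp (-|y| / 2))))) :=
      ((hHi.const_mul _).add (((exp_half_int.const_mul _).const_mul 4).const_mul _)).const_mul 3
    have hh1 : hsq α K (etaI α Z V2 u W a b) t1 ≤ ∫ y, 3 * (ρ⁻¹ * w * HH lm sg g y
        + (M1 * s) ^ 2 * (4 * (CA ^ 2 * Real.exp (-|y| / 2)))) := by
      unfold hsq
      refine integral_mono_of_nonneg (ae_of_all _ fun y => ?_) hhi (ae_of_all _ fun y => ?_)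
      · show 0 ≤ wt K (rho α t1) y * _
        have hw0 : 0 ≤ wt K (rho α t1) y := by unfold wt; positivity
        positivity
      · show wt K (rho α t1) y * _ ≤ _
        rw [hedd y, het y]
        have hwt0 : 0 ≤ wt K ρ y := by unfold wt; positivity
        have hwt1 : wt K ρ y ≤ 1 := by
          unfold wt
          rw [div_le_one (by positivity)]
          have : 0 < ρ * Real.exp (-(y / K)) := by positivity
          linarith
        have p2 := P2 hlam hsig hrho hK h2K hg0 y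
        have q1 := hsqb _ _ (hA0 y)
        have q2 := hsqb _ _ (hB0 y)
        have q3 := hsqb _ _ (hA1 y)
        have q4 := hsqb _ _ (hB1 y)
        have a2 : a t1 ^ 2 ≤ (M1 * s) ^ 2 := by
          rw [← sq_abs (a t1)]
          exact pow_le_pow_left₀ ha0 (by linarith) 2
        have b2 : b t1 ^ 2 ≤ (M1 * s) ^ 2 := by
          rw [← sq_abs (b t1)]
          exact pow_le_pow_left₀ hb0 (by linarith) 2
        have hH0 := HH_nonneg (g := g) (sg := sg) hlam y
        have hex := (Real.exp_pos (-|y| / 2)).le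
        set X1 := Real.sqrt lm * (lm * deriv g (sg + lm * y))
        set X0 := Real.sqrt lm * g (sg + lm * y)
        have hGX : G y = X0 := rfl
        rw [hGX]
        have t1' := tri X1 (a t1 * deriv (tauA α Z ρ) y) (b t1 * deriv (tauB α Z V2 ρ) y)
        have t0' := tri X0 (a t1 * tauA α Z ρ y) (b t1 * tauB α Z V2 ρ y)
        have r1 : (a t1 * deriv (tauA α Z ρ) y) ^ 2 ≤ (M1 * s) ^ 2 * (CA ^ 2 * Real.exp (-|y| / 2)) := by
          rw [mul_pow]; exact mul_le_mul a2 q3 (sq_nonneg _) (sq_nonneg _)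
        have r2 : (b t1 * deriv (tauB α Z V2 ρ) y) ^ 2 ≤ (M1 * s) ^ 2 * (CA ^ 2 * Real.exp (-|y| / 2)) := by
          rw [mul_pow]; exact mul_le_mul b2 q4 (sq_nonneg _) (sq_nonneg _)
        have r3 : (a t1 * tauA α Z ρ y) ^ 2 ≤ (M1 * s) ^ 2 * (CA ^ 2 * Real.exp (-|y| / 2)) := by
          rw [mul_pow]; exact mul_le_mul a2 q1 (sq_nonneg _) (sq_nonneg _)
        have r4 : (b t1 * tauB α Z V2 ρ y) ^ 2 ≤ (M1 * s) ^ 2 * (CA ^ 2 * Real.exp (-|y| / 2)) := by
          rw [mul_pow]; exact mul_le_mul b2 q2 (sq_nonneg _) (sq_nonneg _)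
        set RR := (M1 * s) ^ 2 * (CA ^ 2 * Real.exp (-|y| / 2)) with hRR
        have hRR0 : 0 ≤ RR := by positivity
        have p3 : wt K ρ y * (X1 ^ 2 + X0 ^ 2) ≤ ρ⁻¹ * w * HH lm sg g y := by
          refine p2.trans ?_
          exact mul_le_mul_of_nonneg_right (mul_le_mul_of_nonneg_left hexw (inv_pos.mpr hrho).le) hH0
        calc wt K ρ y * ((X1 - a t1 * deriv (tauA α Z ρ) y - b t1 * deriv (tauB α Z V2 ρ) y) ^ 2
              + (X0 - a t1 * tauA α Z ρ y - b t1 * tauB α Z V2 ρ y) ^ 2)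
            ≤ wt K ρ y * (3 * (X1 ^ 2 + X0 ^ 2) + 12 * RR) := by
              refine mul_le_mul_of_nonneg_left ?_ hwt0
              linarith
          _ = 3 * (wt K ρ y * (X1 ^ 2 + X0 ^ 2)) + wt K ρ y * (12 * RR) := by ring
          _ ≤ 3 * (ρ⁻¹ * w * HH lm sg g y) + 1 * (12 * RR) := by
              refine add_le_add (by linarith) (mul_le_mul_of_nonneg_right hwt1 (by positivity))
          _ = _ := by rw [hRR]; ring
    have hh2 : ∫ y, 3 * (ρ⁻¹ * w * HH lm sg g y
        + (M1 * s) ^ 2 * (4 * (CA ^ 2 * Real.exp (-|y| / 2))))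
        ≤ 3 * (ρ⁻¹ * w * 1 + (M1 * s) ^ 2 * (4 * (CA ^ 2 * E0))) := by
      rw [integral_const_mul, integral_add (hHi.const_mul _)
        (((exp_half_int.const_mul _).const_mul 4).const_mul _),
        integral_const_mul, integral_const_mul, integral_const_mul, integral_const_mul]
      have : ρ⁻¹ * w * (∫ y, HH lm sg g y) ≤ ρ⁻¹ * w * 1 :=
        mul_le_mul_of_nonneg_left hH1 (by positivity)
      linarith
    have hh3 : (M1 * s) ^ 2 ≤ M1 ^ 2 * (ρ⁻¹ * w) := by
      rw [mul_pow]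
      refine mul_le_mul_of_nonneg_left ?_ (sq_nonneg _)
      have : s ^ 2 ≤ s := pow_le_of_le_one hs0.le hs1 two_ne_zero
      exact this.trans (hsw.trans hwρ)
    have hh4 : 3 * (ρ⁻¹ * w * 1 + (M1 * s) ^ 2 * (4 * (CA ^ 2 * E0)))
        ≤ (3 + 12 * CA ^ 2 * M1 ^ 2 * E0) * (ρ⁻¹ * w) := by
      have h1 := mul_le_mul_of_nonneg_right hh3 (by positivity : 0 ≤ 4 * (CA ^ 2 * E0))
      calc 3 * (ρ⁻¹ * w * 1 + (M1 * s) ^ 2 * (4 * (CA ^ 2 * E0)))
          ≤ 3 * (ρ⁻¹ * w * 1 + M1 ^ 2 * (ρ⁻¹ * w) * (4 * (CA ^ 2 * E0))) :=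
            mul_le_mul_of_nonneg_left (add_le_add_right h1 _) (by norm_num)
        _ = _ := by ring
    have hh5 : (3 + 12 * CA ^ 2 * M1 ^ 2 * E0) * (ρ⁻¹ * w) ≤ M * (ρ⁻¹ * w) := by
      refine mul_le_mul_of_nonneg_right ?_ (by positivity)
      rw [hM]
      have : 0 ≤ M1 + (CA * (1 + E0) / 2 + 2 * M1 * CA ^ 2 * E0) := by positivity
      linarith
    linarith

end Pool.Agent.Helper54.KV
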